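import Pool.Agent.R733.AssSpec

set_option autoImplicit false

/-!
# MP_6b2627_an: the Assouad spectrum of graphs in the big space `C^ω[0,1]`

For the concave modulus `ω(t) = √t` (so `η = 1/2`) the value `2 - (η - θ)/(1 - θ)`, which is the
typical value of the Assouad spectrum in the little space, is not typical in `C^ω[0,1]`.
-/

open Filter Topology Set Pool.Agent.R221.Om Pool.Agent.R733.AS

namespace Pool.Agent.Results.MP_6b2627_an.SpectrumNotTypical

/-- There are a concave modulus `ω` with `η < 1` and a ball of `(C^ω[0,1], ‖·‖_ω)` such that all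
elements `g` of the ball and all `θ ∈ (0, η]` satisfy `dim_A^θ G_g < 2 - (η - θ)/(1 - θ)`; in
particular the set of all `f` with equality for all `θ ∈ (0, η]` is not residual. -/
theorem result : ∃ (ω : ℝ → ℝ) (_ : Fact (IsModulus ω)) (η : ℝ),
    ConcaveOn ℝ (Icc 0 1) ω ∧ 0 < η ∧ η < 1 ∧
    Tendsto (fun t => Real.log (ω t) / Real.log t) (𝓝[>] 0) (𝓝 η) ∧
    ¬ IsMeagre {f : CSpace ω | ∀ θ ∈ Ioc 0 η,
      dimSpec θ (graph f.toFun) < ENNReal.ofReal (2 - (η - θ) / (1 - θ))} ∧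
    {f : CSpace ω | ∀ θ ∈ Ioc 0 η,
      dimSpec θ (graph f.toFun) = ENNReal.ofReal (2 - (η - θ) / (1 - θ))} ∉
      residual (CSpace ω) := by
  have hball : Metric.ball f0 (1 / 96) ⊆ {f : CSpace Real.sqrt | ∀ θ ∈ Ioc (0:ℝ) (1 / 2),
      dimSpec θ (graph f.toFun) < ENNReal.ofReal (2 - (1 / 2 - θ) / (1 - θ))} :=
    fun g hg θ hθ => dimSpec_lt g hg hθ.1 hθ.2
  have hmeagre : ¬ IsMeagre {f : CSpace Real.sqrt | ∀ θ ∈ Ioc (0:ℝ) (1 / 2),
      dimSpec θ (graph f.toFun) < ENNReal.ofReal (2 - (1 / 2 - θ) / (1 - θ))} := fun h =>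
    not_isMeagre_of_isOpen Metric.isOpen_ball ⟨f0, Metric.mem_ball_self (by norm_num)⟩
      (h.mono hball)
  refine ⟨Real.sqrt, sqrtFact, 1 / 2, sqrt_concave, by norm_num, by norm_num, sqrt_eta, hmeagre,
    fun h => hmeagre ?_⟩
  unfold IsMeagre
  refine mem_of_superset h ?_
  intro f hf hlt
  have hmem : (1 / 2 : ℝ) ∈ Ioc (0:ℝ) (1 / 2) := ⟨by norm_num, le_rfl⟩
  exact (hlt _ hmem).ne (hf _ hmem)

end Pool.Agent.Results.MP_6b2627_an.SpectrumNotTypical
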